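import Pool.Agent.T9h96.Tri

/-!
# MP_e7d22a_nt: almost every union of `k ≥ 2` rotated triangular lattices is a dense forest

The plane is the complex plane; the rotation by `θ` is the multiplication by `e^(iθ)`.

If two of the rotated lattices have no common direction then their union is a dense forest, by a
compactness argument.  For fixed `θ_2` there are only countably many `θ_1` for which the rotated
lattices `r_{θ_1}(Λ)` and `r_{θ_2}(Λ)` have a common direction.
-/

set_option autoImplicit false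

namespace Pool.Agent.Results.MP_e7d22a_nt.AlmostEvery

open Complex MeasureTheory Pool.Agent.T9h96.Forest

/-- The lattice `Λ` spanned by `(1, 0)` and `(1/2, √3/2)`. -/
def Lam : Set ℂ := {z | ∃ a b : ℤ, z = a + b * (1 / 2 + (Real.sqrt 3 / 2 : ℝ) * I)}

/-- The union of the `k` copies `r_{θ_i}(Λ) + x_i`. -/
noncomputable def TBG (k : ℕ) (x : Fin k → ℂ) (θ : Fin k → AddCircle (2 * Real.pi)) : Set ℂ :=
  ⋃ i, (fun z => ((θ i).toCircle : ℂ) * z + x i) '' Lam

/-- There is `V : (0, 1) → (0, ∞)` such that for every `ε ∈ (0, 1)` every segment of length `V ε`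
contains a point at distance at most `ε` from `Y`. -/
def DenseForest (Y : Set ℂ) : Prop :=
  ∃ V : ℝ → ℝ, ∀ ε ∈ Set.Ioo (0 : ℝ) 1, 0 < V ε ∧
    ∀ a b : ℂ, dist a b = V ε → ∃ q ∈ segment ℝ a b, ∃ y ∈ Y, dist q y ≤ ε

/-- The period of the angles is positive; this gives the Haar measure of the circle `ℝ / 2πℤ`. -/
instance instTwoPiPos : Fact (0 < 2 * Real.pi) := ⟨Real.two_pi_pos⟩

lemma singleton_null (x : AddCircle (2 * Real.pi)) :
    (volume : Measure (AddCircle (2 * Real.pi))) {x} = 0 := by
  have h : ({x} : Set (AddCircle (2 * Real.pi))) ⊆ Metric.closedBall x 0 := by simp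
  refine measure_mono_null h ?_
  rw [AddCircle.volume_closedBall, mul_zero, min_eq_right Real.two_pi_pos.le, ENNReal.ofReal_zero]

lemma countable_null (S : Set (AddCircle (2 * Real.pi))) (hS : S.Countable) :
    (volume : Measure (AddCircle (2 * Real.pi))) S = 0 := by
  rw [← Set.biUnion_of_singleton S, measure_biUnion_null_iff hS]
  exact fun x _ => singleton_null x

lemma lam_countable : Lam.Countable := by
  have : Lam = Set.range (fun p : ℤ × ℤ =>
      (p.1 : ℂ) + p.2 * (1 / 2 + (Real.sqrt 3 / 2 : ℝ) * I)) := by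
    ext z
    constructor
    · rintro ⟨a, b, h⟩; exact ⟨(a, b), h.symm⟩
    · rintro ⟨⟨a, b⟩, h⟩; exact ⟨a, b, h.symm⟩
  rw [this]
  exact Set.countable_range _

/-- The rotations for which the rotated lattice has a direction in common with `r_c(Λ)`. -/
lemma comm_countable (c : ℂ) (hc : ‖c‖ = 1) : {z : ℂ | ‖z‖ = 1 ∧ Comm z c}.Countable := by
  have hsub : {z : ℂ | ‖z‖ = 1 ∧ Comm z c} ⊆
      ⋃ u ∈ Lam, ⋃ v ∈ Lam, {((‖u‖ / ‖v‖ : ℝ) : ℂ) * (c * v / u), -((‖u‖ / ‖v‖ : ℝ) : ℂ) * (c * v / u)} := by
    rintro z ⟨hz, u, hu, v, hv, hu0, hv0, t, ht⟩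
    refine Set.mem_biUnion hu (Set.mem_biUnion hv ?_)
    have h1 : ‖u‖ = |t| * ‖v‖ := by
      have := congrArg norm ht
      rwa [norm_mul, norm_mul, norm_mul, hz, hc, one_mul, one_mul, Complex.norm_real,
        Real.norm_eq_abs] at this
    have hv' : ‖v‖ ≠ 0 := norm_ne_zero_iff.2 hv0
    have h2 : ‖u‖ / ‖v‖ = |t| := by rw [h1]; field_simp
    have h3 : z = t * (c * v / u) := by
      field_simp
      linear_combination ht
    rw [h2]
    rcases abs_choice t with h | h
    · left; rw [h]; exact h3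
    · right
      rw [Set.mem_singleton_iff, h, h3]; push_cast; ring
  refine Set.Countable.mono hsub ?_
  exact lam_countable.biUnion fun u _ => lam_countable.biUnion fun v _ =>
    (Set.toFinite _).countable

lemma bad_null (n : ℕ) : ∀ᵐ θ : Fin (n + 2) → AddCircle (2 * Real.pi),
    ¬ Comm ((θ 0).toCircle : ℂ) ((θ 1).toCircle : ℂ) := by
  -- the set of `(a, f)` with `a` commensurable to `f 0`
  set B : Set (AddCircle (2 * Real.pi) × (Fin (n + 1) → AddCircle (2 * Real.pi))) :=
    {p | Comm (p.1.toCircle : ℂ) ((p.2 0).toCircle : ℂ)} with hB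
  -- it is the preimage of a countable set under the difference
  set C : Set (AddCircle (2 * Real.pi)) := {a | Comm (a.toCircle : ℂ) 1} with hC
  have hCc : C.Countable := by
    have h1 := comm_countable 1 norm_one
    have h2 : Function.Injective (fun a : AddCircle (2 * Real.pi) => (a.toCircle : ℂ)) := by
      intro a b hab
      exact AddCircle.injective_toCircle Real.two_pi_pos.ne' (Subtype.ext hab)
    refine (h1.preimage_of_injOn h2.injOn).mono ?_
    intro a ha
    exact ⟨Circle.norm_coe _, ha⟩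
  have hBC : B ⊆ (fun p : AddCircle (2 * Real.pi) × (Fin (n + 1) → AddCircle (2 * Real.pi)) =>
      p.1 - p.2 0) ⁻¹' C := by
    rintro ⟨a, f⟩ ⟨u, hu, v, hv, hu0, hv0, t, ht⟩
    refine ⟨u, hu, v, hv, hu0, hv0, t, ?_⟩
    simp only at ht ⊢
    have h3 : ((a - f 0).toCircle : ℂ) * ((f 0).toCircle : ℂ) = (a.toCircle : ℂ) := by
      rw [← Circle.coe_mul, ← AddCircle.toCircle_add, sub_add_cancel]
    have h4 : ((f 0).toCircle : ℂ) ≠ 0 := Circle.coe_ne_zero _
    apply mul_left_cancel₀ h4
    rw [← h3] at ht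
    linear_combination ht
  have hmeas : MeasurableSet ((fun p : AddCircle (2 * Real.pi) × (Fin (n + 1) → AddCircle (2 * Real.pi)) =>
      p.1 - p.2 0) ⁻¹' C) := by
    have : Measurable (fun p : AddCircle (2 * Real.pi) × (Fin (n + 1) → AddCircle (2 * Real.pi)) =>
      p.1 - p.2 0) := by
      apply Continuous.measurable
      fun_prop
    exact this hCc.measurableSet
  have hnull : (volume : Measure (AddCircle (2 * Real.pi) × (Fin (n + 1) → AddCircle (2 * Real.pi)))) B = 0 := by
    refine measure_mono_null hBC ?_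
    rw [Measure.volume_eq_prod, ← Measure.prod_swap, Measure.map_apply measurable_swap hmeas,
      Measure.measure_prod_null (measurable_swap hmeas)]
    refine Filter.Eventually.of_forall fun f => ?_
    show (volume : Measure (AddCircle (2 * Real.pi))) ((fun a => a - f 0) ⁻¹' C) = 0
    apply countable_null
    exact hCc.preimage_of_injOn (sub_left_injective.injOn)
  have hpres := volume_preserving_piFinSuccAbove
    (fun _ : Fin (n + 2) => AddCircle (2 * Real.pi)) 0
  have h5 := hpres.quasiMeasurePreserving.ae (p := fun p => p ∉ B) (by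
    rw [ae_iff]; simpa using hnull)
  filter_upwards [h5] with θ hθ
  exact hθ

/-- **Q1.**  For every `k ≥ 2`, in particular for `k = 2`, the union of the copies
`r_{θ_i}(Λ) + x_i`, `1 ≤ i ≤ k`, is a dense forest for almost all `(θ, x)`, with respect to the
product of the Haar measures of the circles and the Lebesgue measures of the planes. -/
theorem result (k : ℕ) (hk : 2 ≤ k) :
    ∀ᵐ p : (Fin k → AddCircle (2 * Real.pi)) × (Fin k → ℂ), DenseForest (TBG k p.2 p.1) := by
  obtain ⟨n, rfl⟩ : ∃ n, k = n + 2 := ⟨k - 2, by omega⟩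
  have h := (Measure.quasiMeasurePreserving_fst (μ := (volume : Measure (Fin (n + 2) →
    AddCircle (2 * Real.pi)))) (ν := (volume : Measure (Fin (n + 2) → ℂ)))).ae (bad_null n)
  rw [← Measure.volume_eq_prod] at h
  filter_upwards [h] with p hp
  have hc : ∀ i, ‖((p.1 i).toCircle : ℂ)‖ = 1 := fun i => Circle.norm_coe _
  have key := hits_of_not_comm (fun i => ((p.1 i).toCircle : ℂ)) p.2 hc 0 1 hp
  have key' : ∀ ε : ℝ, ∃ V : ℝ, 0 < ε →
      0 < V ∧ Hits (copies (fun i => ((p.1 i).toCircle : ℂ)) p.2) ε V := by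
    intro ε
    by_cases hε : 0 < ε
    · obtain ⟨V, hV⟩ := key ε hε
      exact ⟨V, fun _ => hV⟩
    · exact ⟨0, fun h => absurd h hε⟩
  choose V hV using key'
  refine ⟨V, fun ε hε => ⟨(hV ε hε.1).1, fun a b hab => ?_⟩⟩
  obtain ⟨y, hy, q, hq, h3⟩ := (hV ε hε.1).2 a b hab
  exact ⟨q, hq, y, hy, by rw [dist_comm]; exact h3.le⟩

end Pool.Agent.Results.MP_e7d22a_nt.AlmostEvery
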